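import Pool.Agent.Helper20_TWS.Stmts

/-! TWS, modules BAS and ATT. -/

set_option autoImplicit false

namespace Pool.Agent.TWS.H31

open Pool.Agent.TOR Pool.Agent.TOR.H58 Pool.Agent.TWS Finsupp

theorem bas : BasS := by
  intro V M _ K
  have key : Acyc M K → ∀ p, Ex M K p := by
    intro ha p c hc
    obtain ⟨h1, h2⟩ := hc
    have h3 : bd c = 0 := h2
    obtain ⟨b, hb, hbc⟩ := ha c (Sup_mono (fun l h => h.1) h1) h3
    refine ⟨hom V M (p + 1) b, ?_, ?_⟩
    · intro l hl
      have hl' : Finsupp.filter (fun l : List V => l.length = p + 1) b l ≠ 0 := hl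
      rw [Finsupp.filter_apply] at hl'
      split_ifs at hl' with h
      · exact ⟨hb l hl', h⟩
      · exact absurd rfl hl'
    · rw [bd_hom, hbc, hom_of_mem]
      exact Sup_mono (fun l h => h.2) h1
  exact ⟨key, fun hK e he p => key (acyc_cone hK e he) p⟩

variable {V M : Type} [AddCommGroup M]

/-- the part on the lists which contain h -/
noncomputable def qq (h : V) : (List V →₀ M) →+ (List V →₀ M) :=
  open Classical in Finsupp.filterAddHom fun l => h ∈ l

lemma qq_apply (h : V) (c : List V →₀ M) (l : List V) [Decidable (h ∈ l)] :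
    qq h c l = if h ∈ l then c l else 0 := by
  classical
  change Finsupp.filter (fun l => h ∈ l) c l = _
  rw [Finsupp.filter_apply]
  congr

lemma qq_of_not (h : V) {c : List V →₀ M} (hc : c ∈ Sup M fun l => h ∉ l) : qq h c = 0 := by
  classical
  ext l
  rw [qq_apply, Finsupp.zero_apply]
  split_ifs with h1
  · by_contra h2
    exact hc l h2 h1
  · rfl

lemma sub_qq (h : V) (c : List V →₀ M) : c - qq h c ∈ Sup M fun l => h ∉ l := by
  classical
  intro l hl h1
  apply hl
  rw [Finsupp.sub_apply, qq_apply, if_pos h1, sub_self]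

lemma bd_qq (h : V) {c : List V →₀ M} (hc : bd c = 0) :
    bd (qq h c) ∈ Sup M fun l => h ∉ l := by
  classical
  have h1 : qq h (bd (qq h c)) = 0 := by
    have h2 : qq h (bd (c - qq h c)) = 0 := by
      apply qq_of_not
      refine bd_mem_Sup ?_ (sub_qq h c)
      intro l hl l' hl' _ h3
      exact hl (hl' h h3)
    rw [map_sub, hc, zero_sub, map_neg, neg_eq_zero] at h2
    exact h2
  intro l hl h3
  apply hl
  have h4 := DFunLike.congr_fun h1 l
  rw [qq_apply, if_pos h3] at h4
  exact h4

lemma Zc_le (K : Set V → Prop) (hK : Dn K) (P : Set V) (h : V) (p : ℕ) :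
    Zc M (fun s => (∀ a ∈ s, a ∉ P) ∧ K (insert h s)) p ≤ Bc M K p := by
  rintro z ⟨hz1, hz2⟩
  have hz3 : bd z = 0 := hz2
  refine ⟨cns h z, ?_, ?_⟩
  · refine cns_mem_Sup (fun l hl => ⟨?_, ?_⟩) hz1
    · refine hK _ _ ?_ hl.1.2
      intro x hx
      rcases List.mem_cons.mp hx with h1 | h1
      · exact Or.inl h1
      · exact Or.inr h1
    · rw [List.length_cons, hl.2]
  · rw [bd_cns, hz3, map_zero, sub_zero]

theorem att : AttS := by
  classical
  intro V M _ K P m hK hP hA hB p hp c hc
  obtain ⟨hc1, hc2⟩ := hc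
  have hc0 : bd c = 0 := hc2
  -- the new vertices which occur
  set F : Finset V := (c.support.biUnion fun l => l.toFinset).filter fun a => a ∈ P with hF
  have hFP : ∀ h ∈ F, h ∈ P := fun h hh => (Finset.mem_filter.mp hh).2
  have hFK : ∀ h ∈ F, K {h} := by
    intro h hh
    obtain ⟨l, hl, hvl⟩ := Finset.mem_biUnion.mp (Finset.mem_filter.mp hh).1
    refine hK _ _ ?_ (hc1 l (Finsupp.mem_support_iff.mp hl)).1
    exact Set.singleton_subset_iff.mpr (List.mem_toFinset.mp hvl)
  -- the corrections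
  have hk : ∀ h ∈ F, ∃ k ∈ Sup M (fun l => KL (fun s => (∀ a ∈ s, a ∉ P) ∧ K (insert h s)) l ∧
      l.length = p), bd k = bd (qq h c) := by
    intro h hh
    have h1 : bd (qq h c) ∈ Sup M (fun l => KL (fun s => (∀ a ∈ s, a ∉ P) ∧ K (insert h s)) l ∧
        l.length + 1 = p) := by
      have h2 : qq h c ∈ Sup M (fun l => (KL K l ∧ l.length = p) ∧ h ∈ l) := by
        intro l hl
        rw [qq_apply] at hl
        split_ifs at hl with h3
        · exact ⟨hc1 l hl, h3⟩
        · exact absurd rfl hl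
      have h3 : bd (qq h c) ∈ Sup M (fun l' => ∃ l : List V, (KL K l ∧ l.length = p) ∧ h ∈ l ∧
          (∀ a ∈ l', a ∈ l) ∧ l'.length + 1 = p) :=
        bd_mem_Sup (fun l hl l' h4 h5 => ⟨l, hl.1, hl.2, h4, by rw [h5, hl.1.2]⟩) h2
      intro l' hl'
      obtain ⟨l, h4, h5, h6, h7⟩ := h3 l' hl'
      have h8 : h ∉ l' := bd_qq h hc0 l' hl'
      refine ⟨⟨?_, ?_⟩, h7⟩
      · intro a ha haP
        have h9 : a = h := hP _ h4.1 a (h6 a ha) h h5 haP (hFP h hh)
        exact h8 (h9 ▸ ha)
      · refine hK _ _ ?_ h4.1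
        rintro x (rfl | hx)
        · exact h5
        · exact h6 x hx
    rcases Nat.eq_zero_or_pos p with hp0 | hp0
    · refine ⟨0, AddSubgroup.zero_mem _, ?_⟩
      rw [map_zero]
      symm
      ext l
      rw [Finsupp.zero_apply]
      by_contra hl
      have := (h1 l hl).2
      omega
    · have h2 : bd (qq h c) ∈ Zc M (fun s => (∀ a ∈ s, a ∉ P) ∧ K (insert h s)) (p - 1) :=
        ⟨Sup_mono (fun l hl => ⟨hl.1, by have := hl.2; omega⟩) h1, bd_bd _⟩
      obtain ⟨k, hk1, hk2⟩ := hA h (hFP h hh) (hFK h hh) (p - 1) (by omega) h2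
      refine ⟨k, Sup_mono (fun l hl => ⟨hl.1, by have := hl.2; omega⟩) hk1, hk2⟩
  choose! k hk1 hk2 using hk
  -- c_h - k_h are boundaries
  have hcor : ∀ h ∈ F, qq h c - k h ∈ Bc M K p := by
    intro h hh
    refine ⟨cns h (qq h c - k h), ?_, ?_⟩
    · rw [map_sub]
      refine AddSubgroup.sub_mem _ ?_ ?_
      · have h2 : qq h c ∈ Sup M (fun l => (KL K l ∧ l.length = p) ∧ h ∈ l) := by
          intro l hl
          rw [qq_apply] at hl
          split_ifs at hl with h3
          · exact ⟨hc1 l hl, h3⟩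
          · exact absurd rfl hl
        refine cns_mem_Sup (fun l hl => ⟨?_, ?_⟩) h2
        · refine hK _ _ ?_ hl.1.1
          intro x hx
          rcases List.mem_cons.mp hx with h1 | h1
          · rw [h1]; exact hl.2
          · exact h1
        · rw [List.length_cons, hl.1.2]
      · refine cns_mem_Sup (fun l hl => ⟨?_, ?_⟩) (hk1 h hh)
        · refine hK _ _ ?_ hl.1.2
          intro x hx
          rcases List.mem_cons.mp hx with h1 | h1
          · exact Or.inl h1
          · exact Or.inr h1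
        · rw [List.length_cons, hl.2]
    · rw [bd_cns, map_sub, hk2 h hh, sub_self, map_zero, sub_zero]
  -- the rest
  have hsum : c - ∑ h ∈ F, (qq h c - k h) ∈ Zc M (fun s => (∀ a ∈ s, a ∉ P) ∧ K s) p := by
    constructor
    · have h1 : c - ∑ h ∈ F, (qq h c - k h) = (c - ∑ h ∈ F, qq h c) + ∑ h ∈ F, k h := by
        rw [Finset.sum_sub_distrib]; abel
      rw [h1]
      refine AddSubgroup.add_mem _ ?_ (AddSubgroup.sum_mem _ fun h hh => ?_)
      · intro l hl
        have h2 : (c - ∑ h ∈ F, qq h c) l = c l - ∑ h ∈ F, if h ∈ l then c l else 0 := by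
          rw [Finsupp.sub_apply, Finsupp.finset_sum_apply]
          exact congrArg _ (Finset.sum_congr rfl fun h _ => qq_apply h c l)
        rw [h2] at hl
        have hcl : c l ≠ 0 := by
          intro h3
          apply hl
          rw [h3]
          simp
        refine ⟨⟨?_, (hc1 l hcl).1⟩, (hc1 l hcl).2⟩
        intro a ha haP
        apply hl
        have haF : a ∈ F := by
          rw [hF, Finset.mem_filter]
          refine ⟨Finset.mem_biUnion.mpr ⟨l, Finsupp.mem_support_iff.mpr hcl, ?_⟩, haP⟩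
          exact List.mem_toFinset.mpr ha
        have ha' : a ∈ l := ha
        rw [Finset.sum_eq_single a]
        · rw [if_pos ha', sub_self]
        · intro h hh hne
          rw [if_neg]
          intro h3
          exact hne (hP _ (hc1 l hcl).1 h h3 a ha (hFP h hh) haP)
        · intro h3
          exact absurd haF h3
      · refine Sup_mono (fun l hl => ⟨⟨hl.1.1, ?_⟩, hl.2⟩) (hk1 h hh)
        exact hK _ _ (Set.subset_insert _ _) hl.1.2
    · change bd _ = 0
      rw [map_sub, hc0, zero_sub, map_sum, neg_eq_zero]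
      refine Finset.sum_eq_zero fun h hh => ?_
      rw [map_sub, hk2 h hh, sub_self]
  have h2 := hB p hp hsum
  have h3 : Bc M K p ⊔ ⨆ h : {h : V // h ∈ P ∧ K {h}},
      Zc M (fun s => (∀ a ∈ s, a ∉ P) ∧ K (insert h.1 s)) p ≤ Bc M K p :=
    sup_le le_rfl (iSup_le fun h => Zc_le K hK P h.1 p)
  have h4 : c = (c - ∑ h ∈ F, (qq h c - k h)) + ∑ h ∈ F, (qq h c - k h) := by abel
  rw [h4]
  exact AddSubgroup.add_mem _ (h3 h2) (AddSubgroup.sum_mem _ fun h hh => hcor h hh)

end Pool.Agent.TWS.H31
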